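import Pool.Agent.Lib_helper52.LQ.Defs

set_option autoImplicit false

/-! LQ, block E1. The proofs are those of helper47 (LOC_Eta_helper47.lean). -/

namespace Pool.Agent.LQ

open MeasureTheory ENNReal Set Filter Topology Pool.Agent.EPS Pool.Agent.YG

variable {d : ℕ}

theorem e1_neg (t : ℝ) : eta (-t) = eta t := by
  simp only [eta]; ring_nf

theorem e1_zero : eta 0 = 0 := by simp [eta]

theorem e1_der {t : ℝ} (h1 : -1 < t) (h2 : t < 1) :
    HasDerivAt eta (Real.log (1 + t) - Real.log (1 - t)) t := by
  have a1 : (1 : ℝ) + t ≠ 0 := by linarith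
  have a2 : (1 : ℝ) - t ≠ 0 := by linarith
  have d1 : HasDerivAt (fun s : ℝ => 1 + s) 1 t := by simpa using (hasDerivAt_id t).const_add 1
  have d2 : HasDerivAt (fun s : ℝ => 1 - s) (-1) t := by simpa using (hasDerivAt_id t).const_sub 1
  have e1 := d1.mul (d1.log a1)
  have e2 := d2.mul (d2.log a2)
  have e := e1.add e2
  refine e.congr_deriv ?_
  field_simp
  ring

/-- `t² ≤ η(t)` for `|t| < 1`. -/
theorem e1_lo {t : ℝ} (ht : |t| < 1) : t ^ 2 ≤ eta t := by
  wlog h0 : 0 ≤ t with H
  · have := H (t := -t) (by rwa [abs_neg]) (by linarith)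
    rwa [e1_neg, neg_sq] at this
  have ht1 : t < 1 := (abs_lt.1 ht).2
  -- g = η - s^2, g' = log(1+s) - log(1-s) - 2 s ≥ 0
  have hmono : MonotoneOn (fun s => eta s - s ^ 2) (Set.Icc 0 t) := by
    refine monotoneOn_of_deriv_nonneg (convex_Icc 0 t) ?_ ?_ ?_
    · intro s hs
      have := e1_der (t := s) (by linarith [hs.1]) (by linarith [hs.2])
      exact (this.sub ((hasDerivAt_id s).pow 2)).continuousAt.continuousWithinAt
    · intro s hs
      rw [interior_Icc] at hs
      have := e1_der (t := s) (by linarith [hs.1]) (by linarith [hs.2])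
      exact (this.sub ((hasDerivAt_id s).pow 2)).differentiableAt.differentiableWithinAt
    · intro s hs
      rw [interior_Icc] at hs
      have := e1_der (t := s) (by linarith [hs.1]) (by linarith [hs.2])
      have hd : deriv (fun s => eta s - s ^ 2) s = Real.log (1 + s) - Real.log (1 - s) - 2 * s := by
        have h := (this.sub ((hasDerivAt_id s).pow 2))
        have h' : HasDerivAt (fun s => eta s - s ^ 2) (Real.log (1 + s) - Real.log (1 - s) - 2 * s) s := by
          refine h.congr_deriv ?_
          simp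
        exact h'.deriv
      rw [hd]
      -- log((1+s)/(1-s)) ≥ 2s
      have hs0 := hs.1
      have hs1 : s < 1 := by linarith [hs.2]
      have h2 : Real.log (1 + s) - Real.log (1 - s) = Real.log ((1 + s) / (1 - s)) := by
        rw [Real.log_div (by linarith) (by linarith)]
      have hsum := Real.hasSum_log_sub_log_of_abs_lt_one (x := s) (by rw [abs_of_pos hs0]; exact hs1)
      have := hsum.tsum_eq
      have hle : 2 * s ≤ Real.log (1 + s) - Real.log (1 - s) := by
        rw [← this]
        have := hsum.summable.sum_le_tsum {0} (fun k _ => by positivity)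
        simpa using this
      linarith
  have := hmono (Set.left_mem_Icc.2 h0) (Set.right_mem_Icc.2 h0) h0
  simp only [e1_zero] at this
  linarith

/-- `η(t) ≤ t² + t⁴` for `|t| ≤ 1/2`. -/
theorem e1_hi {t : ℝ} (ht : |t| ≤ 1 / 2) : eta t ≤ t ^ 2 + t ^ 4 := by
  wlog h0 : 0 ≤ t with H
  · have := H (t := -t) (by rwa [abs_neg]) (by linarith)
    rw [e1_neg] at this
    nlinarith
  have ht1 : t ≤ 1 / 2 := (abs_le.1 ht).2
  have hmono : MonotoneOn (fun s => s ^ 2 + s ^ 4 - eta s) (Set.Icc 0 t) := by
    have key : ∀ s ∈ Set.Icc (0 : ℝ) t, HasDerivAt (fun s => s ^ 2 + s ^ 4 - eta s)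
        (2 * s + 4 * s ^ 3 - (Real.log (1 + s) - Real.log (1 - s))) s := by
      intro s hs
      have := e1_der (t := s) (by linarith [hs.1]) (by linarith [hs.2])
      have h := (((hasDerivAt_id s).pow 2).add ((hasDerivAt_id s).pow 4)).sub this
      refine h.congr_deriv ?_
      simp
    have key2 : ∀ s ∈ Set.Icc (0 : ℝ) t, HasDerivAt
        (fun s => 2 * s + 4 * s ^ 3 - (Real.log (1 + s) - Real.log (1 - s)))
        (2 + 12 * s ^ 2 - 2 / (1 - s ^ 2)) s := by
      intro s hs
      have a1 : (1 : ℝ) + s ≠ 0 := by linarith [hs.1]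
      have a2 : (1 : ℝ) - s ≠ 0 := by linarith [hs.2]
      have a3 : (1 : ℝ) - s ^ 2 ≠ 0 := by
        have : (1 : ℝ) - s ^ 2 = (1 + s) * (1 - s) := by ring
        rw [this]; exact mul_ne_zero a1 a2
      have d1 : HasDerivAt (fun s : ℝ => 1 + s) 1 s := by simpa using (hasDerivAt_id s).const_add 1
      have d2 : HasDerivAt (fun s : ℝ => 1 - s) (-1) s := by
        simpa using (hasDerivAt_id s).const_sub 1
      have e := (((hasDerivAt_id s).const_mul 2).add (((hasDerivAt_id s).pow 3).const_mul 4)).sub
        ((d1.log a1).sub (d2.log a2))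
      refine e.congr_deriv ?_
      simp only [id]
      field_simp
      ring
    have hmono2 : MonotoneOn (fun s => 2 * s + 4 * s ^ 3 - (Real.log (1 + s) - Real.log (1 - s)))
        (Set.Icc 0 t) := by
      refine monotoneOn_of_deriv_nonneg (convex_Icc 0 t)
        (fun s hs => (key2 s hs).continuousAt.continuousWithinAt)
        (fun s hs => (key2 s (interior_subset hs)).differentiableAt.differentiableWithinAt) ?_
      intro s hs
      have hs' := interior_subset hs
      rw [(key2 s hs').deriv]
      have hs2 : s ^ 2 ≤ 1 / 4 := by nlinarith [hs'.1, hs'.2]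
      have hpos : 0 < 1 - s ^ 2 := by linarith
      rw [sub_nonneg, div_le_iff₀ hpos]
      nlinarith [sq_nonneg s]
    refine monotoneOn_of_deriv_nonneg (convex_Icc 0 t)
        (fun s hs => (key s hs).continuousAt.continuousWithinAt)
        (fun s hs => (key s (interior_subset hs)).differentiableAt.differentiableWithinAt) ?_
    intro s hs
    have hs' := interior_subset hs
    rw [(key s hs').deriv]
    have := hmono2 (Set.left_mem_Icc.2 h0) hs' hs'.1
    simpa using this
  have := hmono (Set.left_mem_Icc.2 h0) (Set.right_mem_Icc.2 h0) h0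
  simp only [e1_zero] at this
  linarith

theorem e1_nn {t : ℝ} (ht : |t| < 1) : 0 ≤ eta t := (sq_nonneg t).trans (e1_lo ht)

theorem e1_meas : Measurable eta := by
  unfold eta
  fun_prop

/-- `eta t = 2 ∑ t^(2k) / (2k (2k-1))`; or by monotonicity: the second derivative of `eta` is
`2 / (1 - t²)`, which lies between `2` and `2 + 12 t²` for `|t| ≤ 1/2`. -/
theorem eta_bd (t : ℝ) (ht : |t| ≤ 1 / 2) : t ^ 2 ≤ eta t ∧ eta t ≤ t ^ 2 + t ^ 4 :=
  ⟨e1_lo (lt_of_le_of_lt ht (by norm_num)), e1_hi ht⟩

end Pool.Agent.LQ
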