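import Pool.Agent.Lib_helper52.LQ.Defs
import Pool.Agent.Lib_helper49.LQ.N3
import Pool.Agent.Lib_helper59.LQ.E1

set_option autoImplicit false

namespace Pool.Agent.LQ

open MeasureTheory ENNReal Set Filter Topology Pool.Agent.EPS Pool.Agent.YG

variable {d : ℕ}

theorem e2_int {μ : Measure (Eu d)} [IsProbabilityMeasure μ] {f : Eu d → ℝ} (hf : Measurable f)
    (C : ℝ) (hC : ∀ x, |f x| ≤ C) : Integrable f μ :=
  Integrable.of_bound hf.aestronglyMeasurable C
    (Filter.Eventually.of_forall fun x => by rw [Real.norm_eq_abs]; exact hC x)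

theorem e2_log {t : ℝ} (h0 : 1 / 2 ≤ t) (h1 : t ≤ 3 / 2) : |t * Real.log t| ≤ 2 := by
  have ht : 0 < t := by linarith
  have h2 : Real.log t ≤ t - 1 := Real.log_le_sub_one_of_pos ht
  have h3 : 1 - t⁻¹ ≤ Real.log t := Real.one_sub_inv_le_log_of_pos ht
  have h4 : t * (1 - t⁻¹) = t - 1 := by field_simp
  have h5 : t * (1 - t⁻¹) ≤ t * Real.log t := mul_le_mul_of_nonneg_left h3 ht.le
  have h6 : t * Real.log t ≤ t * (t - 1) := mul_le_mul_of_nonneg_left h2 ht.le
  rw [abs_le]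
  constructor
  · linarith
  · nlinarith

/-- second difference of the entropy along a tilt: by `ent_tl` the sum is exactly
`2 ent μ - ∫ eta (s κ) dμ`. -/
theorem ent_pm {μ : Measure (Eu d)} [IsProbabilityMeasure μ] (h : FinE μ) (κ : Eu d → ℝ)
    (hκ : Measurable κ) (M s : ℝ) (hM : ∀ x, |κ x| ≤ M) (hs : 0 ≤ s) (hsM : s * M ≤ 1 / 2)
    (h0 : ∫ x, κ x ∂μ = 0) :
    ent (tl μ (fun x => 1 + s * κ x)) + ent (tl μ (fun x => 1 - s * κ x)) ≤
      2 * ent μ - s ^ 2 * ∫ x, κ x ^ 2 ∂μ ∧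
    2 * ent μ - s ^ 2 * (∫ x, κ x ^ 2 ∂μ) - s ^ 4 * M ^ 4 ≤
      ent (tl μ (fun x => 1 + s * κ x)) + ent (tl μ (fun x => 1 - s * κ x)) := by
  have hM0 : 0 ≤ M := (abs_nonneg (κ 0)).trans (hM 0)
  have hb : ∀ x, |s * κ x| ≤ 1 / 2 := fun x => by
    rw [abs_mul, abs_of_nonneg hs]
    exact (mul_le_mul_of_nonneg_left (hM x) hs).trans hsM
  have hbl : ∀ x, -(1 / 2) ≤ s * κ x := fun x => (abs_le.1 (hb x)).1
  have hbu : ∀ x, s * κ x ≤ 1 / 2 := fun x => (abs_le.1 (hb x)).2
  have hsk : Measurable fun x => s * κ x := hκ.const_mul s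
  have hski : Integrable (fun x => s * κ x) μ := e2_int hsk (1 / 2) hb
  have mf : Measurable fun x => 1 + s * κ x := measurable_const.add hsk
  have mg : Measurable fun x => 1 - s * κ x := measurable_const.sub hsk
  have hsk0 : ∫ x, s * κ x ∂μ = 0 := by rw [integral_const_mul, h0, mul_zero]
  have hf1 : ∫ x, (1 + s * κ x) ∂μ = 1 := by
    rw [integral_add (integrable_const _) hski, hsk0]
    simp
  have hg1 : ∫ x, (1 - s * κ x) ∂μ = 1 := by
    rw [integral_sub (integrable_const _) hski, hsk0]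
    simp
  obtain ⟨_, _, i1, e1⟩ := ent_tl h (fun x => 1 + s * κ x) mf
    (fun x => by linarith [hbl x]) 2 (fun x => by linarith [hbu x]) hf1
  obtain ⟨_, _, i2, e2⟩ := ent_tl h (fun x => 1 - s * κ x) mg
    (fun x => by linarith [hbu x]) 2 (fun x => by linarith [hbl x]) hg1
  obtain ⟨_, _, i0, e0⟩ := ent_tl h (fun _ => 1) measurable_const
    (fun _ => zero_le_one) 1 (fun _ => le_rfl) (by simp)
  have et : tl μ (fun _ => (1 : ℝ)) = μ := by
    unfold tl
    simp only [ENNReal.ofReal_one]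
    exact withDensity_one
  rw [et] at e0
  simp only [Real.log_one, mul_zero, integral_zero, sub_zero, one_mul] at e0 i0
  -- the exact formula
  have hsum : (∫ x, (1 + s * κ x) * lg μ x ∂μ) + (∫ x, (1 - s * κ x) * lg μ x ∂μ) =
      2 * ∫ x, lg μ x ∂μ := by
    rw [← integral_add i1 i2, ← integral_const_mul]
    refine integral_congr_ae (Filter.Eventually.of_forall fun x => ?_)
    simp only
    ring
  have j1 : Integrable (fun x => (1 + s * κ x) * Real.log (1 + s * κ x)) μ :=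
    e2_int (mf.mul (Real.measurable_log.comp mf)) 2 (fun x => e2_log (by linarith [hbl x])
      (by linarith [hbu x]))
  have j2 : Integrable (fun x => (1 - s * κ x) * Real.log (1 - s * κ x)) μ :=
    e2_int (mg.mul (Real.measurable_log.comp mg)) 2 (fun x => e2_log (by linarith [hbu x])
      (by linarith [hbl x]))
  have heta : (∫ x, (1 + s * κ x) * Real.log (1 + s * κ x) ∂μ) +
      (∫ x, (1 - s * κ x) * Real.log (1 - s * κ x) ∂μ) = ∫ x, eta (s * κ x) ∂μ := by
    rw [← integral_add j1 j2]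
    rfl
  have ie : Integrable (fun x => eta (s * κ x)) μ := j1.add j2
  have hex : ent (tl μ (fun x => 1 + s * κ x)) + ent (tl μ (fun x => 1 - s * κ x)) =
      2 * ent μ - ∫ x, eta (s * κ x) ∂μ := by
    rw [e1, e2, e0, ← heta]
    linarith
  -- the bounds
  have ik : Integrable (fun x => κ x ^ 2) μ := e2_int (hκ.pow_const 2) (M ^ 2) (fun x => by
    rw [abs_pow]
    exact pow_le_pow_left₀ (abs_nonneg _) (hM x) 2)
  have lo : s ^ 2 * (∫ x, κ x ^ 2 ∂μ) ≤ ∫ x, eta (s * κ x) ∂μ := by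
    rw [← integral_const_mul]
    refine integral_mono (ik.const_mul _) ie fun x => ?_
    have := (eta_bd (s * κ x) (hb x)).1
    simp only
    linarith [mul_pow s (κ x) 2]
  have hi : (∫ x, eta (s * κ x) ∂μ) ≤ s ^ 2 * (∫ x, κ x ^ 2 ∂μ) + s ^ 4 * M ^ 4 := by
    have hc : s ^ 4 * M ^ 4 = ∫ _x, s ^ 4 * M ^ 4 ∂μ := by simp
    rw [hc, ← integral_const_mul, ← integral_add (ik.const_mul _) (integrable_const _)]
    refine integral_mono ie ((ik.const_mul _).add (integrable_const _)) fun x => ?_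
    have h1 := (eta_bd (s * κ x) (hb x)).2
    have h2 : κ x ^ 4 ≤ M ^ 4 := by
      have h3 := pow_le_pow_left₀ (abs_nonneg _) (hM x) 4
      rwa [← abs_pow, abs_of_nonneg (by positivity)] at h3
    have h4 : s ^ 4 * κ x ^ 4 ≤ s ^ 4 * M ^ 4 := mul_le_mul_of_nonneg_left h2 (by positivity)
    simp only
    linarith [mul_pow s (κ x) 2, mul_pow s (κ x) 4]
  rw [hex]
  constructor <;> linarith

end Pool.Agent.LQ
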